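import Mathlib
import Pool.Agent.LibH46.BBLevel

set_option autoImplicit false

open Filter Topology MeasureTheory Pool.Agent.LibH46.BBHilbert Pool.Agent.LibH46.DiagSemigroup
  Pool.Agent.LibH46.ObsLower Pool.Agent.LibH46.BBMul Pool.Agent.LibH46.BBBasis
  Pool.Agent.LibH46.BBMain Pool.Agent.LibH46.BBUpper Pool.Agent.LibH46.BBLevel

namespace Pool.Agent.Results.MP_325d65_an.NotBangBang

open Pool.Agent.LibH46

/-- The relaxed profiles `a` on `(0,1)` with values in `[0,1]` and integral `L`. -/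
def IsAdmissible (L : ℝ) (a : ℝ → ℝ) : Prop :=
  AEStronglyMeasurable a μ ∧ (∀ᵐ x ∂μ, 0 ≤ a x ∧ a x ≤ 1) ∧ ∫ x, a x ∂μ = L

/-- The relaxed observability constant; `S t y` is the solution at time `t` started from `y`. -/
noncomputable def obs (A : H →ₗ.[ℂ] H) (S : ℝ → H →L[ℂ] H) (T : ℝ) (a : ℝ → ℝ) : ℝ :=
  sInf {r : ℝ | ∃ y : H, y ∈ A.domain ∧ y ≠ 0 ∧
    r = (∫ t in (0 : ℝ)..T, ∫ x, a x * ‖(S t y : ℝ → ℂ) x‖ ^ 2 ∂μ) / ‖S T y‖ ^ 2}

/-- The functions occurring in condition (H_L). -/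
noncomputable def Phi (J : Finset ℕ) (β : ℕ → ℕ → ℂ) (η : ℕ → ℝ) (f : ℕ → ℝ → ℂ) (x : ℝ) : ℝ :=
  ∑ p ∈ J, η p * ‖∑ j ∈ J, β j p * f j x‖ ^ 2

/-- Condition (H_L), in the stronger form with complex coefficients. -/
def HypL (lam : ℕ → ℂ) (f : ℕ → ℝ → ℂ) (L : ℝ) : Prop :=
  (∀ j, (lam j).re = (lam 0).re → ContDiffOn ℝ 1 (f j) (Set.Icc 0 1)) ∧
  ∀ J : Finset ℕ, (∀ j, j ∈ J ↔ (lam j).re = (lam 0).re) →
    ∀ (β : ℕ → ℕ → ℂ) (η : ℕ → ℝ), (∀ p ∈ J, 0 ≤ η p ∧ η p ≤ 1) → ∑ p ∈ J, η p = 1 →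
      (∃ j ∈ J, ∃ p ∈ J, β j p ≠ 0) →
      (∃ ν > 0, volume {x | x ∈ Set.Ioo (0 : ℝ) 1 ∧ ν ≤ Phi J β η f x} = ENNReal.ofReal L) ∧
      ∀ ν > 0, volume {x | x ∈ Set.Ioo (0 : ℝ) 1 ∧ ν ≤ Phi J β η f x} = ENNReal.ofReal L →
        ∃ ε > 0, ∀ x ∈ frontier {x | x ∈ Set.Ioo (0 : ℝ) 1 ∧ ν ≤ Phi J β η f x} \
          frontier (Set.Ioo (0 : ℝ) 1), ε ≤ |deriv (Phi J β η f) x|

/-- The systems of the problem with `d = q = 1` and domain `(0,1)`. -/
structure IsSystem (lam : ℕ → ℂ) (φ : HilbertBasis ℕ ℂ H) (f : ℕ → ℝ → ℂ) (A : H →ₗ.[ℂ] H)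
    (S : ℝ → H →L[ℂ] H) (L : ℝ) : Prop where
  dense : Dense (A.domain : Set H)
  semigroup : IsC0Semigroup S
  generator : IsNegGenerator S A
  eigen : ∀ j, ∃ h : φ j ∈ A.domain, A ⟨φ j, h⟩ = lam j • φ j
  mono : Monotone fun j => (lam j).re
  infinity : Tendsto (fun j => (lam j).re) atTop atTop
  representative : ∀ j, (φ j : ℝ → ℂ) =ᵐ[μ] f j
  analytic : ∀ j, AnalyticOnNhd ℝ (f j) (Set.Ioo 0 1)
  hypL : HypL lam f L

theorem exists_poly (j : ℕ) : ∃ P : Polynomial ℂ, Φ P = hb j := by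
  have h1 : hb j ∈ Submodule.span ℂ (Set.range phi) := by
    rw [hb_coe]
    exact Submodule.subset_span ⟨j, rfl⟩
  rw [span_phi] at h1
  exact h1

noncomputable def Pj (j : ℕ) : Polynomial ℂ := (exists_poly j).choose

theorem Pj_spec (j : ℕ) : Φ (Pj j) = hb j := (exists_poly j).choose_spec

theorem Pj_zero : Pj 0 = P0 := by
  apply Φ_injective
  rw [Pj_spec, hb0]

/-- Representatives of the eigenfunctions. -/
noncomputable def fj (j : ℕ) (x : ℝ) : ℂ :=
  (Pj j).eval ((BBFun.τ x : ℝ) : ℂ) * ((BBFun.ψ x : ℝ) : ℂ)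

theorem fj_zero_sq (x : ℝ) : ‖fj 0 x‖ ^ 2 = g x := by
  unfold fj
  rw [Pj_zero]
  have h1 : P0.eval ((BBFun.τ x : ℝ) : ℂ) * ((BBFun.ψ x : ℝ) : ℂ)
      = ((√3 / 2 * (1 + BBFun.τ x) * BBFun.ψ x : ℝ) : ℂ) := by
    simp [P0]
  rw [h1, Complex.norm_real, Real.norm_eq_abs, sq_abs]
  unfold g
  have := s3
  linear_combination ((1 + BBFun.τ x) ^ 2 * BBFun.ψ x ^ 2 / 4) * this

theorem lam_re (j : ℕ) : (((j : ℂ) + 1)).re = (j : ℝ) + 1 := by simp

theorem hypL_holds (L : ℝ) (hL : 0 < L) (hL1 : L < 1) : HypL (fun j => (j : ℂ) + 1) fj L := by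
  constructor
  · intro j _ x _
    exact (analytic_fp (Pj j) x).contDiffAt.contDiffWithinAt
  · intro J hJ β η _ hη1 hβ
    have hJ0 : J = {0} := by
      ext j
      rw [hJ, Finset.mem_singleton, lam_re, lam_re]
      constructor
      · intro h
        have : (j : ℝ) = 0 := by push_cast at h; linarith
        exact_mod_cast this
      · rintro rfl
        rfl
    subst hJ0
    rw [Finset.sum_singleton] at hη1
    obtain ⟨j, hj, p, hp, hjp⟩ := hβ
    rw [Finset.mem_singleton] at hj hp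
    subst hj hp
    have hc : 0 < ‖β 0 0‖ ^ 2 := by positivity
    have hPhi : Phi {0} β η fj = fun x => ‖β 0 0‖ ^ 2 * g x := by
      funext x
      unfold Phi
      rw [Finset.sum_singleton, Finset.sum_singleton, hη1, one_mul, norm_mul, mul_pow, fj_zero_sq]
    rw [hPhi]
    exact level_g _ hc L hL hL1

theorem L_pos : 0 < L := by unfold L; norm_num

theorem L_lt : L < 1 := by unfold L; norm_num

theorem isSystem : IsSystem (fun j => (j : ℂ) + 1) hb fj (op hb lam) (sg hb lam lam_nonneg) L where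
  dense := dense_domain hb lam
  semigroup := isC0 hb lam lam_nonneg
  generator := isNegGenerator hb lam lam_nonneg
  eigen := by
    intro j
    refine ⟨basis_mem hb lam j, ?_⟩
    rw [op_basis]
    congr 1
    unfold lam
    push_cast
    rfl
  mono := by
    intro i j hij
    simp only [lam_re]
    have : (i : ℝ) ≤ j := by exact_mod_cast hij
    linarith
  infinity := by
    simp only [lam_re]
    exact tendsto_atTop_add_const_right _ _ tendsto_natCast_atTop_atTop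
  representative := by
    intro j
    rw [← Pj_spec j]
    exact Φ_coe _
  analytic := by
    intro j x _
    exact analytic_fp (Pj j) x
  hypL := hypL_holds L L_pos L_lt

theorem sg_ne_zero (y : H) (hy : y ≠ 0) : 0 < ‖sg hb lam lam_nonneg T y‖ ^ 2 := by
  have h : sg hb lam lam_nonneg T y ≠ 0 := by
    intro h0
    apply hy
    apply ext_repr hb
    intro k
    have h1 := repr_sg' hb lam lam_nonneg T T_pos.le y k
    rw [h0, map_zero] at h1
    have h2 : ((Real.exp (-(lam k * T)) : ℝ) : ℂ) ≠ 0 := by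
      rw [Ne, Complex.ofReal_eq_zero]
      exact (Real.exp_pos _).ne'
    rw [map_zero]
    have h3 : ((0 : lp (fun _ : ℕ => ℂ) 2) : ℕ → ℂ) k = 0 := rfl
    rw [h3] at h1 ⊢
    rcases mul_eq_zero.mp h1.symm with h4 | h4
    · exact absurd h4 h2
    · exact h4
  positivity

theorem obs_lower : σ ≤ obs (op hb lam) (sg hb lam lam_nonneg) T astar := by
  unfold obs
  apply le_csInf
  · refine ⟨_, hb 0, basis_mem hb lam 0, ?_, rfl⟩
    exact hb.orthonormal.ne_zero 0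
  · rintro r ⟨y, _, hy, rfl⟩
    rw [le_div_iff₀ (sg_ne_zero y hy)]
    have h1 := lower y
    refine h1.trans (le_of_eq ?_)
    apply intervalIntegral.integral_congr
    intro t _
    exact inner_mulOp _ _ _ _

theorem obs_upper (b : ℝ → ℝ) (hbadm : IsAdmissible L b) :
    obs (op hb lam) (sg hb lam lam_nonneg) T b ≤ σ := by
  obtain ⟨h1, h2, h3⟩ := hbadm
  unfold obs
  apply csInf_le
  · refine ⟨0, ?_⟩
    rintro r ⟨y, _, _, rfl⟩
    apply div_nonneg _ (by positivity)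
    apply intervalIntegral.integral_nonneg T_pos.le
    intro t _
    apply integral_nonneg_of_ae
    filter_upwards [h2] with x hx
    exact mul_nonneg hx.1 (by positivity)
  · refine ⟨y0, y0_mem, ?_, ?_⟩
    · intro h0
      have h4 := norm_sq_final
      rw [h0, map_zero, norm_zero] at h4
      norm_num at h4
    · rw [numerator b h1 h2, h3, norm_sq_final, ratio]

/-- The bang-bang property fails: an explicit system with eigenvalues `1, 2, 3, ...` on `(0,1)`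
satisfying all the standing assumptions has a maximiser with values strictly between `0` and `1`. -/
theorem result : ∃ (lam : ℕ → ℂ) (φ : HilbertBasis ℕ ℂ H) (f : ℕ → ℝ → ℂ) (A : H →ₗ.[ℂ] H)
    (S : ℝ → H →L[ℂ] H) (L T : ℝ) (a : ℝ → ℝ), 0 < L ∧ L < 1 ∧ 0 < T ∧
    (∀ j, lam j = (j : ℂ) + 1) ∧ IsSystem lam φ f A S L ∧ IsAdmissible L a ∧
    (∀ b, IsAdmissible L b → obs A S T b ≤ obs A S T a) ∧
    ∀ x ∈ Set.Ioo (0 : ℝ) 1, 0 < a x ∧ a x < 1 := by
  refine ⟨fun j => (j : ℂ) + 1, hb, fj, op hb lam, sg hb lam lam_nonneg, L, T, astar, L_pos, L_lt,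
    T_pos, fun j => rfl, isSystem, ⟨astar_meas, ?_, integral_astar⟩, ?_, astar_bounds⟩
  · apply ae_μ
    intro x hx
    exact ⟨(astar_bounds x hx).1.le, (astar_bounds x hx).2.le⟩
  · intro b hb'
    exact (obs_upper b hb').trans obs_lower

end Pool.Agent.Results.MP_325d65_an.NotBangBang
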